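import Pool.Agent.H42.TQ.Defs
import Pool.Agent.H94.EP.DyZ
import Pool.Agent.H94.EP.DyO

/-
Time derivative of `ω_θ / r`: joint continuity, bounds, fundamental theorem of calculus (also on the axis), and the rate of `NO / 2`.
-/

set_option autoImplicit false

open Set Filter Topology MeasureTheory
open scoped ContDiff Interval

namespace Pool.Agent.H37.TQ

open Pool.Agent.H16 Pool.Agent.H87.NS Pool.Agent.H72.CC Pool.Agent.H16.TU Pool.Agent.H94.EP Pool.Agent.H87.EP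
  Pool.Agent.H42.TQ Pool.Agent.H37.EP

variable {T : ℝ} {u : ℝ → E3 → E3} {p : ℝ → E3 → ℝ}

theorem jcddO (h : IsAxisymNS T u p) (i j : Fin 3) : JC T (fun t => pd i (pd j (sO (u t)))) := by
  have hg : JS T (fun t y => curl (curl (u t)) y 2) := js_curl2 h 2
  obtain ⟨k, hk⟩ := DyB_avk hg j 1
  obtain ⟨k', hk'⟩ := DyB_avk (JS_pd hg j) i k
  refine Bds2_JC_congr (g := fun t => avk k' (pd i (pd j (fun y => curl (curl (u t)) y 2))))
    (fun t ht x => ?_) (avk_JC (JS_JC (JS_pd (JS_pd hg j) i)) k')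
  have h1 : sO (u t) = avk 1 (fun y => curl (curl (u t)) y 2) := rfl
  rw [h1, hk t ht, hk' t ht]

theorem jc_dh (h : IsAxisymNS T u p) : JC T (fun t => dh (sO (u t))) :=
  avk_JC (JC_add (jcddO h 0 0) (jcddO h 1 1)) 1

/-- Joint continuity of the time derivative. -/
theorem tO_jc (h : IsHInfAxisymNS T u p) : JC T (fun t => tO (u t)) := by
  have hns := h.ns
  have e : (fun t => tO (u t)) = fun t x =>
      (((-1 : ℝ) * ((u t x 0 * pd 0 (sO (u t)) x + u t x 1 * pd 1 (sO (u t)) x) + u t x 2 * pd 2 (sO (u t)) x)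
        + ((pd 0 (pd 0 (sO (u t))) x + pd 1 (pd 1 (sO (u t))) x) + pd 2 (pd 2 (sO (u t))) x))
        + 2 * dh (sO (u t)) x) + 2 * (sV (u t) x * pd 2 (sV (u t)) x) := by
    funext t x
    simp only [tO, adv, lap, GO, Zz, Fin.sum_univ_three]
    ring
  rw [e]
  have j1 : JC T (fun t x => (u t x 0 * pd 0 (sO (u t)) x + u t x 1 * pd 1 (sO (u t)) x) + u t x 2 * pd 2 (sO (u t)) x) :=
    JC_add (JC_add (JC_mul (jcu hns 0) (jcdO hns 0)) (JC_mul (jcu hns 1) (jcdO hns 1))) (JC_mul (jcu hns 2) (jcdO hns 2))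
  have j2 : JC T (fun t x => (pd 0 (pd 0 (sO (u t))) x + pd 1 (pd 1 (sO (u t))) x) + pd 2 (pd 2 (sO (u t))) x) :=
    JC_add (JC_add (jcddO hns 0 0) (jcddO hns 1 1)) (jcddO hns 2 2)
  exact JC_add (JC_add (JC_add (JC_mul (JC_const continuous_const) j1) j2) (JC_mul (JC_const continuous_const) (jc_dh hns)))
    (JC_mul (JC_const continuous_const) (JC_mul (jcV hns) (jcdV hns 2)))

/-- Bounds. -/
theorem tO_bd (h : IsHInfAxisymNS T u p) {b : ℝ} (hb : b < T) :
    ∃ K : ℝ, 0 ≤ K ∧ ∀ t ∈ Icc 0 b, ∀ x, |sO (u t) x| ≤ K ∧ |tO (u t) x| ≤ K := by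
  obtain ⟨K, hK0, hK⟩ := bds h hb 2
  refine ⟨5 * K ^ 2 + 8 * K, by positivity, fun t ht x => ?_⟩
  have ht' : t ∈ Ico 0 T := ⟨ht.1, lt_of_le_of_lt ht.2 hb⟩
  obtain ⟨hV, -, hO, hu, -⟩ := hK t ht
  have a1 : |sV (u t) x| ≤ K := hV.1.1 x
  have a2 : |pd 2 (sV (u t)) x| ≤ K := (hV.2 2).1.1 x
  have a3 : |sO (u t) x| ≤ K := hO.1.1 x
  have a4 : ∀ i y, |pd i (sO (u t)) y| ≤ K := fun i y => (hO.2 i).1.1 y
  have a5 : ∀ i j y, |pd i (pd j (sO (u t))) y| ≤ K := fun i j y => ((hO.2 j).2 i).1 y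
  have a6 : ∀ j, |u t x j| ≤ K := fun j => (hu j).1.1 x
  have b1 : |adv (u t x) (sO (u t)) x| ≤ 3 * (K * K) :=
    EVe_sum3 (fun i => u t x i) (fun i => pd i (sO (u t)) x) hK0 a6 (fun i => a4 i x)
  have b2 : |lap (sO (u t)) x| ≤ 3 * K := by
    have h1 : lap (sO (u t)) x = ∑ i : Fin 3, (1:ℝ) * pd i (pd i (sO (u t))) x := by
      simp [lap]
    rw [h1]
    have h2 := EVe_sum3 (fun _ => (1:ℝ)) (fun i => pd i (pd i (sO (u t))) x) (K := 1) (P := K) (by norm_num)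
      (fun _ => by simp) (fun i => a5 i i x)
    simpa using h2
  have b3 : |dh (sO (u t)) x| ≤ 2 * K := by
    have h1 : ‖∫ s in (0:ℝ)..1, s ^ 1 * (pd 0 (pd 0 (sO (u t))) (sq s x) + pd 1 (pd 1 (sO (u t))) (sq s x))‖ ≤ (2 * K) * |(1:ℝ) - 0| := by
      refine intervalIntegral.norm_integral_le_of_norm_le_const fun s hs => ?_
      rw [uIoc_of_le zero_le_one] at hs
      rw [Real.norm_eq_abs, abs_mul, pow_one, abs_of_pos hs.1]
      have c1 := abs_add_le (pd 0 (pd 0 (sO (u t))) (sq s x)) (pd 1 (pd 1 (sO (u t))) (sq s x))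
      have c2 := a5 0 0 (sq s x)
      have c3 := a5 1 1 (sq s x)
      have c4 : |pd 0 (pd 0 (sO (u t))) (sq s x) + pd 1 (pd 1 (sO (u t))) (sq s x)| ≤ 2 * K := by linarith
      calc s * |pd 0 (pd 0 (sO (u t))) (sq s x) + pd 1 (pd 1 (sO (u t))) (sq s x)| ≤ 1 * (2 * K) :=
            mul_le_mul hs.2 c4 (abs_nonneg _) zero_le_one
        _ = 2 * K := one_mul _
    rw [sub_zero, abs_one, mul_one] at h1
    exact h1
  have b4 : |GO (u t) x| ≤ 2 * (K * K) := by
    have h1 := mul_le_mul a1 a2 (abs_nonneg _) hK0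
    unfold GO Zz
    rw [abs_mul, abs_mul, abs_two]
    nlinarith
  refine ⟨by nlinarith [sq_nonneg K], ?_⟩
  have c1 := abs_le.1 b1
  have c2 := abs_le.1 b2
  have c3 := abs_le.1 b3
  have c4 := abs_le.1 b4
  unfold tO
  rw [abs_le]
  constructor
  · nlinarith [c1.1, c1.2, c2.1, c2.2, c3.1, c3.2, c4.1, c4.2]
  · nlinarith [c1.1, c1.2, c2.1, c2.2, c3.1, c3.2, c4.1, c4.2]

/-- The equation off the axis. -/
theorem tO_deriv (h : IsHInfAxisymNS T u p) {t : ℝ} (ht : t ∈ Ioo 0 T) {x : E3} (hx : 0 < rsq x) :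
    HasDerivAt (fun s => sO (u s) x) (tO (u t) x) t := by
  have ht' : t ∈ Ico 0 T := ⟨ht.1.le, ht.2⟩
  have hd := (comm_loc (f := fun s => sO (u s)) (jointO h.ns) ht hx 0).1
  have he := (evoO h).eq t ht x hx
  have hr := rdr_eq (vs_ri (vs_of h ht')).2.2.1 x
  have h1 : 2 / rsq x * rdr (sO (u t)) x = 2 * dh (sO (u t)) x := by
    rw [hr]
    field_simp
  have h2 : deriv (fun s => sO (u s) x) t = tO (u t) x := by
    unfold tO
    rw [h1] at he
    linarith
  rw [← h2]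
  exact hd.hasDerivAt

private theorem Dt_ct {g : ℝ → E3 → ℝ} (hg : JC T g) {b : ℝ} (hb : b < T) {t1 : ℝ} (h1 : 0 ≤ t1) (x : E3) :
    ContinuousOn (fun t => g t x) (Icc t1 b) :=
  (EVe_ct hg hb x).mono (Icc_subset_Icc_left h1)

/-- Fundamental theorem of calculus, also on the axis. -/
theorem tO_ftc (h : IsHInfAxisymNS T u p) {t1 t2 : ℝ} (h1 : 0 ≤ t1) (h12 : t1 ≤ t2) (h2 : t2 < T) (x : E3) :
    sO (u t2) x = sO (u t1) x + ∫ s in t1..t2, tO (u s) x := by
  have hj := tO_jc h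
  have hoff : ∀ y : E3, 0 < rsq y → sO (u t2) y = sO (u t1) y + ∫ s in t1..t2, tO (u s) y := by
    intro y hy
    have hi : IntervalIntegrable (fun s => tO (u s) y) volume t1 t2 := by
      apply ContinuousOn.intervalIntegrable
      rw [uIcc_of_le h12]
      exact Dt_ct hj h2 h1 y
    have h3 := intervalIntegral.integral_eq_sub_of_hasDerivAt_of_le h12 (f := fun s => sO (u s) y)
      (f' := fun s => tO (u s) y) (Dt_ct (jcO h.ns) h2 h1 y)
      (fun s hs => tO_deriv h ⟨lt_of_le_of_lt h1 hs.1, hs.2.trans h2⟩ hy) hi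
    rw [h3]
    ring
  rcases lt_or_ge 0 (rsq x) with hx | hx
  · exact hoff x hx
  · have hx3 : x 0 ^ 2 + x 1 ^ 2 ≤ 0 := hx
    have hx0 : x 0 = 0 := by nlinarith [sq_nonneg (x 0), sq_nonneg (x 1)]
    have hx1 : x 1 = 0 := by nlinarith [sq_nonneg (x 0), sq_nonneg (x 1)]
    have hcO : ∀ t ∈ Ico 0 T, Continuous (sO (u t)) := fun t ht => EVe_cx (jcO h.ns) ht
    obtain ⟨K, hK0, hK⟩ := tO_bd h h2
    have hcI : Continuous (fun y => ∫ s in t1..t2, tO (u s) y) := by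
      rw [continuous_iff_continuousAt]
      intro y
      refine intervalIntegral.continuousAt_of_dominated_interval (bound := fun _ => K) ?_ ?_ ?_ ?_
      · refine Eventually.of_forall fun z => ?_
        rw [uIoc_of_le h12]
        exact ((Dt_ct hj h2 h1 z).mono Ioc_subset_Icc_self).aestronglyMeasurable measurableSet_Ioc
      · refine Eventually.of_forall fun z => ?_
        refine Eventually.of_forall fun s hs => ?_
        rw [uIoc_of_le h12] at hs
        exact (hK s ⟨h1.trans hs.1.le, hs.2⟩ z).2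
      · exact intervalIntegrable_const
      · refine Eventually.of_forall fun s hs => ?_
        rw [uIoc_of_le h12] at hs
        exact (EVe_cx hj ⟨h1.trans hs.1.le, hs.2.trans_lt h2⟩).continuousAt
    have hlim : Tendsto (fun n : ℕ => x + ((1:ℝ) / (n + 1)) • e 0) atTop (𝓝 x) := by
      have h3 := (tendsto_one_div_add_atTop_nhds_zero_nat (𝕜 := ℝ)).smul_const (e 0)
      have h4 := h3.const_add x
      simpa using h4
    have c1 : Tendsto (fun n : ℕ => sO (u t2) (x + ((1:ℝ) / (n + 1)) • e 0)) atTop (𝓝 (sO (u t2) x)) :=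
      ((hcO t2 ⟨h1.trans h12, h2⟩).tendsto x).comp hlim
    have c2 : Tendsto (fun n : ℕ => sO (u t1) (x + ((1:ℝ) / (n + 1)) • e 0)
        + ∫ s in t1..t2, tO (u s) (x + ((1:ℝ) / (n + 1)) • e 0)) atTop
        (𝓝 (sO (u t1) x + ∫ s in t1..t2, tO (u s) x)) :=
      (((hcO t1 ⟨h1, h12.trans_lt h2⟩).add hcI).tendsto x).comp hlim
    refine tendsto_nhds_unique c1 (c2.congr fun n => ?_)
    symm
    apply hoff
    have h4 : rsq (x + ((1:ℝ) / (n + 1)) • e 0) = ((1:ℝ) / (n + 1)) ^ 2 := by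
      simp [rsq, e_apply, hx0, hx1]
    rw [h4]
    positivity

/-! ### The weight -/

theorem A1_ct (L a : ℝ) : Continuous (A1 L a) := by
  have h : A1 L a = fun x => Y1 (rsq x) * ph L a (x 2) := A1_pw L a
  rw [h]
  exact (Y1_sm.continuous.comp EVe_rsq_smooth.continuous).mul
    ((P_sm L a 0).1.continuous.comp (EuclideanSpace.proj 2 : E3 →L[ℝ] ℝ).continuous)

theorem A1_int {L : ℝ} (hL : 1 ≤ L) (a : ℝ) : Integrable (A1 L a) := by
  obtain ⟨C, hC0, hC⟩ := Y1_bd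
  have h : ∀ x, A1 L a x = Y1 (rsq x) * ph L a (x 2) := congrFun (A1_pw L a)
  have hg : Integrable (dm 1 L a) := dm_int one_pos (by linarith) a
  refine (hg.const_mul C).mono' (A1_ct L a).aestronglyMeasurable ?_
  filter_upwards [ae_off] with x hx
  have hp : 0 < ph L a (x 2) := (P_bd hL a (h := 0) (by simp) (x 2)).1
  rw [Real.norm_eq_abs, h x]
  rcases lt_or_ge (rsq x) 1 with h1 | h1
  · rw [abs_mul, abs_of_pos hp]
    have h2 := (dm_1 le_rfl L a hx h1).1
    calc |Y1 (rsq x)| * ph L a (x 2) ≤ C * ph L a (x 2) := mul_le_mul_of_nonneg_right (hC _ hx).1 hp.le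
      _ ≤ C * dm 1 L a x := mul_le_mul_of_nonneg_left h2 hC0
  · rw [(Y1_zero (ρ := rsq x) (by linarith)).1, zero_mul, abs_zero]
    exact mul_nonneg hC0 (dm_nn _ _ _ _)

private theorem Dt_JC (h : IsHInfAxisymNS T u p) (L a : ℝ) :
    JC T (fun t x => A1 L a x * (sO (u t) x * tO (u t) x)) :=
  JC_mul (JC_const (A1_ct L a)) (JC_mul (jcO h.ns) (tO_jc h))

private theorem Dt_bd {A s t K : ℝ} (hK : 0 ≤ K) (hs : |s| ≤ K) (ht : |t| ≤ K) : |A * (s * t)| ≤ K ^ 2 * |A| := by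
  rw [abs_mul, abs_mul]
  have h1 := mul_le_mul hs ht (abs_nonneg _) hK
  calc |A| * (|s| * |t|) ≤ |A| * (K * K) := mul_le_mul_of_nonneg_left h1 (abs_nonneg _)
    _ = K ^ 2 * |A| := by ring

theorem RN_int (h : IsHInfAxisymNS T u p) {L : ℝ} (hL : 1 ≤ L) (a : ℝ) {t : ℝ} (ht : t ∈ Ico 0 T) :
    Integrable (fun x => A1 L a x * (sO (u t) x * tO (u t) x)) := by
  obtain ⟨K, hK0, hK⟩ := tO_bd h ht.2
  refine ((A1_int hL a).abs.const_mul (K ^ 2)).mono' (EVe_cx (Dt_JC h L a) ht).aestronglyMeasurable ?_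
  refine Eventually.of_forall fun x => ?_
  obtain ⟨h1, h2⟩ := hK t ⟨ht.1, le_rfl⟩ x
  exact Dt_bd hK0 h1 h2

/-- Continuity of the rate. -/
theorem RN_ct (h : IsHInfAxisymNS T u p) {L : ℝ} (hL : 1 ≤ L) (a : ℝ) :
    ContinuousOn (fun t => RN L a (u t)) (Ico 0 T) := by
  unfold RN
  refine ct1 (Φ := fun t x => A1 L a x * (sO (u t) x * tO (u t) x)) (A1_int hL a).abs
    (fun t ht => (EVe_cx (Dt_JC h L a) ht).aestronglyMeasurable) (fun b hb => ?_) ?_
  · obtain ⟨K, hK0, hK⟩ := tO_bd h hb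
    refine ⟨K ^ 2, fun t ht => Eventually.of_forall fun x => ?_⟩
    obtain ⟨h1, h2⟩ := hK t ht x
    exact Dt_bd hK0 h1 h2
  · refine Eventually.of_forall fun x => ?_
    have h1 : ContinuousOn (fun t : ℝ => ((t, x) : ℝ × E3)) (Ico 0 T) := by fun_prop
    exact ContinuousOn.comp (g := fun q : ℝ × E3 => A1 L a q.2 * (sO (u q.1) q.2 * tO (u q.1) q.2)) (f := fun t : ℝ => (t, x))
      (Dt_JC h L a) h1 fun t ht => ⟨ht, mem_univ _⟩

/-- The square at a point. -/
theorem sq_ftc (h : IsHInfAxisymNS T u p) {t1 t2 : ℝ} (h1 : 0 ≤ t1) (h12 : t1 ≤ t2) (h2 : t2 < T) {x : E3} (hx : 0 < rsq x) :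
    ∫ s in t1..t2, sO (u s) x * tO (u s) x = sO (u t2) x ^ 2 / 2 - sO (u t1) x ^ 2 / 2 := by
  have cO := Dt_ct (jcO h.ns) h2 h1 x
  have cT := Dt_ct (tO_jc h) h2 h1 x
  refine intervalIntegral.integral_eq_sub_of_hasDerivAt_of_le h12 (f := fun s => sO (u s) x ^ 2 / 2)
      (f' := fun s => sO (u s) x * tO (u s) x) ((cO.pow 2).div_const 2) (fun s hs => ?_) ?_
  · have h3 := ((tO_deriv h ⟨lt_of_le_of_lt h1 hs.1, hs.2.trans h2⟩ hx).pow 2).div_const 2
    refine h3.congr_deriv ?_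
    simp only [Nat.cast_ofNat]
    ring
  · apply ContinuousOn.intervalIntegrable
    rw [uIcc_of_le h12]
    exact cO.mul cT

/-- The rate of `NO / 2`. -/
theorem NO_ftc (h : IsHInfAxisymNS T u p) {L : ℝ} (hL : 1 ≤ L) (a : ℝ) {t1 t2 : ℝ} (h1 : 0 ≤ t1) (h12 : t1 ≤ t2) (h2 : t2 < T) :
    NO L a (u t2) / 2 = NO L a (u t1) / 2 + ∫ s in t1..t2, RN L a (u s) := by
  have ht2 : t2 ∈ Ico 0 T := ⟨h1.trans h12, h2⟩
  have ht1 : t1 ∈ Ico 0 T := ⟨h1, h12.trans_lt h2⟩
  obtain ⟨K, hK0, hK⟩ := tO_bd h h2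
  have i2 := (c_f2 (evoO h) hL a).2 t2 ht2
  have i1 := (c_f2 (evoO h) hL a).2 t1 ht1
  have hsub : Ioc t1 t2 ×ˢ (univ : Set E3) ⊆ Ico 0 T ×ˢ univ :=
    Set.prod_mono (fun s hs => ⟨h1.trans hs.1.le, hs.2.trans_lt h2⟩) subset_rfl
  have hm : AEStronglyMeasurable (Function.uncurry fun (s : ℝ) (x : E3) => A1 L a x * (sO (u s) x * tO (u s) x))
      ((volume.restrict (Ioc t1 t2)).prod (volume : Measure E3)) := by
    have h3 : ContinuousOn (Function.uncurry fun (s : ℝ) (x : E3) => A1 L a x * (sO (u s) x * tO (u s) x))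
        (Ioc t1 t2 ×ˢ (univ : Set E3)) := ContinuousOn.mono (Dt_JC h L a) hsub
    have h4 := h3.aestronglyMeasurable (μ := (volume : Measure ℝ).prod (volume : Measure E3))
      (measurableSet_Ioc.prod MeasurableSet.univ)
    have h5 : ((volume : Measure ℝ).prod (volume : Measure E3)).restrict (Ioc t1 t2 ×ˢ (univ : Set E3))
        = (volume.restrict (Ioc t1 t2)).prod (volume : Measure E3) := by
      rw [← Measure.prod_restrict, Measure.restrict_univ]
    rwa [h5] at h4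
  have hI : Integrable (Function.uncurry fun (s : ℝ) (x : E3) => A1 L a x * (sO (u s) x * tO (u s) x))
      ((volume.restrict (Ioc t1 t2)).prod (volume : Measure E3)) := by
    have hg : Integrable (fun q : ℝ × E3 => (K ^ 2) * |A1 L a q.2|)
        ((volume.restrict (Ioc t1 t2)).prod (volume : Measure E3)) := by
      have h3 : Integrable (fun _ : ℝ => K ^ 2) (volume.restrict (Ioc t1 t2)) :=
        integrable_const _
      exact h3.mul_prod (A1_int hL a).abs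
    refine hg.mono' hm ?_
    have h6 : ∀ᵐ q : ℝ × E3 ∂((volume.restrict (Ioc t1 t2)).prod (volume : Measure E3)), q.1 ∈ Ioc t1 t2 := by
      have h7 : ((volume : Measure ℝ).prod (volume : Measure E3)).restrict (Ioc t1 t2 ×ˢ (univ : Set E3))
          = (volume.restrict (Ioc t1 t2)).prod (volume : Measure E3) := by
        rw [← Measure.prod_restrict, Measure.restrict_univ]
      rw [← h7]
      filter_upwards [ae_restrict_mem (measurableSet_Ioc.prod MeasurableSet.univ)] with q hq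
      exact hq.1
    filter_upwards [h6] with q hq
    obtain ⟨b1, b2⟩ := hK q.1 ⟨h1.trans hq.1.le, hq.2⟩ q.2
    exact Dt_bd hK0 b1 b2
  have e1 : ∫ s in t1..t2, RN L a (u s) = ∫ x, ∫ s in Ioc t1 t2, A1 L a x * (sO (u s) x * tO (u s) x) := by
    rw [intervalIntegral.integral_of_le h12]
    exact integral_integral_swap hI
  have e2 : ∫ x, ∫ s in Ioc t1 t2, A1 L a x * (sO (u s) x * tO (u s) x)
      = ∫ x, (A1 L a x * sO (u t2) x ^ 2 / 2 - A1 L a x * sO (u t1) x ^ 2 / 2) := by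
    refine integral_congr_ae ?_
    filter_upwards [ae_off] with x hx
    have h3 := sq_ftc h h1 h12 h2 hx
    rw [intervalIntegral.integral_of_le h12] at h3
    rw [integral_const_mul, h3]
    ring
  rw [e1, e2, integral_sub (i2.div_const 2) (i1.div_const 2)]
  have e3 : ∀ t, ∫ x, A1 L a x * sO (u t) x ^ 2 / 2 = NO L a (u t) / 2 := fun t => by
    rw [integral_div]
    rfl
  rw [e3, e3]
  ring

end Pool.Agent.H37.TQ
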