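import Pool.Agent.H37.TQ.Dt
import Pool.Agent.H67.TQ.P

/-
`NO` is Lipschitz in time, uniformly in the height.
-/

set_option autoImplicit false

open Set Filter Topology MeasureTheory
open scoped ContDiff Interval

namespace Pool.Agent.H37.TQ

open Pool.Agent.H16 Pool.Agent.H87.NS Pool.Agent.H72.CC Pool.Agent.H16.TU Pool.Agent.H94.EP Pool.Agent.H87.EP
  Pool.Agent.H42.TQ Pool.Agent.H37.EP Pool.Agent.H67.TQ

theorem A1_sh (L a : ℝ) (x : E3) : A1 L 0 (x - a • e 2) = A1 L a x := by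
  have h0 : (x - a • e 2) 0 = x 0 := by simp [e_apply]
  have h1 : (x - a • e 2) 1 = x 1 := by simp [e_apply]
  have h2 : (x - a • e 2) 2 = x 2 - a := by simp [e_apply]
  simp only [A1, H94.EP.c1, ph, rsq, h0, h1, h2, sub_zero]

theorem A1_abs (L a : ℝ) : ∫ x, |A1 L a x| = ∫ x, |A1 L 0 x| := by
  rw [← integral_sub_right_eq_self (fun x => |A1 L 0 x|) (a • e 2)]
  simp only [A1_sh]

variable {T : ℝ} {u : ℝ → E3 → E3} {p : ℝ → E3 → ℝ}

theorem RN_bd (h : IsHInfAxisymNS T u p) {b : ℝ} (hb : b < T) {L : ℝ} (hL : 1 ≤ L) :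
    ∃ B : ℝ, 0 ≤ B ∧ ∀ t ∈ Icc 0 b, ∀ a, |RN L a (u t)| ≤ B := by
  obtain ⟨K, hK0, hK⟩ := tO_bd h hb
  refine ⟨K ^ 2 * ∫ x, |A1 L 0 x|, mul_nonneg (sq_nonneg _) (integral_nonneg fun x => abs_nonneg _), fun t ht a => ?_⟩
  have h1 : ‖∫ x, A1 L a x * (sO (u t) x * tO (u t) x)‖ ≤ ∫ x, K ^ 2 * |A1 L a x| := by
    refine norm_integral_le_of_norm_le ((A1_int hL a).abs.const_mul _) (Eventually.of_forall fun x => ?_)
    obtain ⟨h2, h3⟩ := hK t ht x
    rw [Real.norm_eq_abs, abs_mul, abs_mul]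
    have h4 := mul_le_mul h2 h3 (abs_nonneg _) hK0
    calc |A1 L a x| * (|sO (u t) x| * |tO (u t) x|) ≤ |A1 L a x| * (K * K) := mul_le_mul_of_nonneg_left h4 (abs_nonneg _)
      _ = K ^ 2 * |A1 L a x| := by ring
  rw [integral_const_mul, A1_abs] at h1
  exact h1

private theorem Lip_le (h : IsHInfAxisymNS T u p) {b : ℝ} (hb : b < T) {L : ℝ} (hL : 1 ≤ L) {B : ℝ}
    (hB : ∀ t ∈ Icc 0 b, ∀ a, |RN L a (u t)| ≤ B) {s t : ℝ} (hs : s ∈ Icc 0 b) (ht : t ∈ Icc 0 b) (hst : s ≤ t) (a : ℝ) :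
    |NO L a (u t) - NO L a (u s)| ≤ 2 * B * |t - s| := by
  have h1 := NO_ftc h hL a hs.1 hst (ht.2.trans_lt hb)
  have h2 : ‖∫ r in s..t, RN L a (u r)‖ ≤ B * |t - s| := by
    refine intervalIntegral.norm_integral_le_of_norm_le_const fun r hr => ?_
    rw [uIoc_of_le hst] at hr
    exact hB r ⟨hs.1.trans hr.1.le, hr.2.trans ht.2⟩ a
  have h3 : NO L a (u t) - NO L a (u s) = 2 * ∫ r in s..t, RN L a (u r) := by linarith
  rw [h3, abs_mul, abs_two, mul_assoc]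
  exact mul_le_mul_of_nonneg_left h2 zero_le_two

/-- `NO` is Lipschitz in time, uniformly in the height. -/
theorem q2l : QLip := by
  intro T u p h b hb L hL
  obtain ⟨B, hB0, hB⟩ := RN_bd h hb hL
  refine ⟨2 * B, by positivity, fun s hs t ht a => ?_⟩
  rcases le_total s t with hst | hst
  · exact Lip_le h hb hL hB hs ht hst a
  · rw [abs_sub_comm, abs_sub_comm t s]
    exact Lip_le h hb hL hB ht hs hst a

end Pool.Agent.H37.TQ
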