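import Pool.Agent.H37.TQ.T1h
import Pool.Agent.H42.TQ.A7
import Pool.Agent.H42.TQ.T0

/-
The inequality for a finite shift (row TQ_T1) from the neighbour inequality.
-/

set_option autoImplicit false

open Set Filter Topology MeasureTheory
open scoped ContDiff InnerProductSpace

namespace Pool.Agent.H37.TQ

open Pool.Agent.H16 Pool.Agent.H87.NS Pool.Agent.H72.CC Pool.Agent.H16.TU Pool.Agent.H94.EP Pool.Agent.H87.EP Pool.Agent.H42.TQ

theorem Zb_of {R : ℝ} {p : Hz} (h : Sz (-R) R p) : Zb R p := by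
  filter_upwards [h] with z hz hR
  exact hz fun h1 => absurd (abs_le.2 h1) (not_le.2 hR)

theorem sq2_ge (q : ℝ × ℝ) : ‖q‖ ^ 2 ≤ sq2 q := by
  unfold sq2
  rw [Prod.norm_def]
  rcases max_choice ‖q.1‖ ‖q.2‖ with h | h
  · rw [h, Real.norm_eq_abs, sq_abs]
    nlinarith [sq_nonneg q.2]
  · rw [h, Real.norm_eq_abs, sq_abs]
    nlinarith [sq_nonneg q.1]

theorem fl_all {N r2 : ℝ} (hN : 0 < N) (hr : 0 < r2) {F : E3 → ℝ} (hF : Cs F) :
    ∃ R ρ : ℝ, Fl R ρ (fib F) ∧ Fl R ρ (gq N r2 F) ∧ Fl R ρ (uq N r2 F) := by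
  obtain ⟨R, hR, hb, -⟩ := hF.box
  obtain ⟨A, hA⟩ := fib_out hF
  obtain ⟨-, cg, cu⟩ := vq_cont hN hr hF
  have hs : ∀ x, F x ≠ 0 → x 2 ∈ Icc (-R) R := by
    intro x hx
    by_contra h
    apply hx
    have h1 : R ≤ |x 2| := by
      by_contra h2
      rw [not_le] at h2
      exact h (abs_le.1 h2.le)
    have h2 := hb (x 0, x 1) (x 2) h1
    rwa [pt_eta] at h2
  have hz := vq_Sz hN hr (by linarith : -R ≤ R) hF hs
  have ho : ∀ q : ℝ × ℝ, |A| + 1 < ‖q‖ → fib F q = 0 := by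
    intro q hq
    apply hA
    have h1 := sq2_ge q
    have h2 := le_abs_self A
    have h3 := abs_nonneg A
    nlinarith
  exact ⟨R, |A| + 1, ⟨fib_cont hF, fun q => Zb_of (hz q).1, ho⟩, ⟨cg, fun q => Zb_of (hz q).2.2.1, fun q hq => (vq_out hN hr (ho q hq)).2.1⟩,
    ⟨cu, fun q => Zb_of (hz q).2.2.2, fun q hq => (vq_out hN hr (ho q hq)).2.2⟩⟩

theorem pt_line (q : ℝ × ℝ) (z : ℝ) : HasDerivAt (fun s : ℝ => pt q s) (e 2) z := by
  have h : (fun s : ℝ => pt q s) = fun s : ℝ => pt q 0 + s • e 2 := by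
    funext s
    apply ext3 <;> simp [pt, e_apply]
  rw [h]
  have h1 : HasDerivAt (fun s : ℝ => s • e 2) ((1 : ℝ) • e 2) z := (hasDerivAt_id z).smul_const (e 2)
  rw [one_smul] at h1
  exact h1.const_add (pt q 0)

theorem pt_deriv {θ : E3 → ℝ} (hs : ContDiff ℝ ∞ θ) (q : ℝ × ℝ) : deriv (fun z => θ (pt q z)) = fun z => pd 2 θ (pt q z) := by
  funext z
  have h1 : HasFDerivAt θ (fderiv ℝ θ (pt q z)) (pt q z) := ((hs.differentiable (by simp)) (pt q z)).hasFDerivAt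
  exact (h1.comp_hasDerivAt z (pt_line q z)).deriv

theorem shift_ineq' {N r2 : ℝ} (hN : 0 < N) (hr : 0 < r2) {F : E3 → ℝ} (hF : Cs F) {θ : E3 → ℝ} (hs : ContDiff ℝ ∞ θ)
    (hn : ∀ x, 0 ≤ θ x) (hz : ∃ R, ∀ x : E3, R ≤ |x 2| → pd 2 θ x = 0) (d : ℝ × ℝ) (s : ℝ) :
    (∫ q : ℝ × ℝ, ⟪uq N r2 F q, fib (fun x => θ x * F x) (q - s • d) - fib (fun x => θ x * F x) q⟫_ℝ) +
    1 / 2 * (∫ q : ℝ × ℝ, ∫ z, (cE N r2 (pt q z) * θ (pt q z) - cE N r2 (pt (q - s • d) z) * θ (pt (q - s • d) z)) *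
      uq N r2 F q z ^ 2) +
    (∫ q : ℝ × ℝ, ∫ z, (gq N r2 F q z * pd 2 θ (pt q z) - gq N r2 F (q - s • d) z * pd 2 θ (pt (q - s • d) z)) *
      wq N r2 F q z) ≤ 0 := by
  obtain ⟨R, ρ, lf, lg, lu⟩ := fl_all hN hr hF
  obtain ⟨Rz, hRz⟩ := hz
  obtain ⟨a, ha⟩ : ∃ a : ℝ × ℝ, a = s • d := ⟨_, rfl⟩
  rw [← ha]
  have cθ : Continuous fun x : (ℝ × ℝ) × ℝ => θ (pt x.1 x.2) := hs.continuous.comp pt_cont
  have cθ' : Continuous fun x : (ℝ × ℝ) × ℝ => pd 2 θ (pt x.1 x.2) := (pd_smooth hs 2).continuous.comp pt_cont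
  have ck : Continuous fun x : (ℝ × ℝ) × ℝ => cE N r2 (pt x.1 x.2) * θ (pt x.1 x.2) :=
    ((cE_sm (N := N) hr).continuous.comp pt_cont).mul cθ
  have cw := wq_cont hN hr hF
  have hne : ∀ q, ∫ z, gq N r2 F q z * (θ (pt q z) * (uq N r2 F (q + a) z - uq N r2 F q z) +
      pd 2 θ (pt q z) * (wq N r2 F q z - wq N r2 F (q + a) z)) ≤ 0 := by
    intro q
    have e1 := pt_deriv hs q
    have h1 : ContDiff ℝ 1 (fun z => θ (pt q z)) := by
      rw [contDiff_one_iff_deriv]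
      refine ⟨fun z => ?_, ?_⟩
      · have h2 : HasFDerivAt θ (fderiv ℝ θ (pt q z)) (pt q z) := ((hs.differentiable (by simp)) (pt q z)).hasFDerivAt
        exact (h2.comp_hasDerivAt z (pt_line q z)).differentiableAt
      · rw [e1]
        exact slice_cont (φ := fun (q : ℝ × ℝ) z => pd 2 θ (pt q z)) cθ' q
    have h3 : HasCompactSupport (deriv fun z => θ (pt q z)) := by
      rw [e1]
      refine HasCompactSupport.intro (isCompact_Icc (a := -Rz) (b := Rz)) fun z hz => ?_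
      apply hRz
      show Rz ≤ |z|
      by_contra h4
      rw [not_le] at h4
      exact hz (abs_le.1 h4.le)
    have h5 := neighbour (cq_pos hN hr q) (fib F q) (uq_Kc hN hr F (q + a)) h1 h3 (fun z => hn _)
    rw [e1] at h5
    exact h5
  have main := shift_abs (w := wq N r2 F) (c := cq N r2) (θ := fun q z => θ (pt q z)) (θ' := fun q z => pd 2 θ (pt q z))
    (k := fun q z => cE N r2 (pt q z) * θ (pt q z)) a lf lg lu cw cθ cθ' ck
    (fun q z => mul_nonneg (by rw [cE_pt]; exact (cq_pos hN hr q).le) (hn _)) (fun q z => by rw [cE_pt])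
    (fun q => (vq_add hN hr F q).1) hne
  have hG : Cs (fun x => θ x * F x) := hF.mul_left hs
  have e1 : ∀ q q' : ℝ × ℝ, ⟪uq N r2 F q, fib (fun x => θ x * F x) q'⟫_ℝ = ∫ z, fib F q' z * θ (pt q' z) * uq N r2 F q z := by
    intro q q'
    rw [fib_inner' hG]
    refine integral_congr_ae ?_
    filter_upwards [fib_coe hF q'] with z h1
    rw [h1]
    ring
  have f1 : ∀ q, ⟪uq N r2 F q, fib (fun x => θ x * F x) (q - a) - fib (fun x => θ x * F x) q⟫_ℝ =
      (∫ z, fib F (q - a) z * θ (pt (q - a) z) * uq N r2 F q z) - ∫ z, fib F q z * θ (pt q z) * uq N r2 F q z := by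
    intro q
    rw [inner_sub_right, e1, e1]
  have f2 : ∀ q, ∫ z, (cE N r2 (pt q z) * θ (pt q z) - cE N r2 (pt (q - a) z) * θ (pt (q - a) z)) * uq N r2 F q z ^ 2 =
      (∫ z, uq N r2 F q z * (cE N r2 (pt q z) * θ (pt q z)) * uq N r2 F q z) -
        ∫ z, uq N r2 F q z * (cE N r2 (pt (q - a) z) * θ (pt (q - a) z)) * uq N r2 F q z := by
    intro q
    have m1 := mulz_int (slice_cont (φ := fun (q : ℝ × ℝ) z => cE N r2 (pt q z) * θ (pt q z)) ck q) (lu.zb q) (uq N r2 F q)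
    have m2 := mulz_int (slice_cont (φ := fun (q : ℝ × ℝ) z => cE N r2 (pt q z) * θ (pt q z)) ck (q - a)) (lu.zb q) (uq N r2 F q)
    rw [← integral_sub m1 m2]
    refine integral_congr_ae (Eventually.of_forall fun z => ?_)
    simp only
    ring
  have f3 : ∀ q, ∫ z, (gq N r2 F q z * pd 2 θ (pt q z) - gq N r2 F (q - a) z * pd 2 θ (pt (q - a) z)) * wq N r2 F q z =
      (∫ z, gq N r2 F q z * (pd 2 θ (pt q z) * wq N r2 F q z)) -
        ∫ z, gq N r2 F (q - a) z * (pd 2 θ (pt (q - a) z) * wq N r2 F q z) := by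
    intro q
    have cwq : Continuous (wq N r2 F q) := slice_cont (φ := wq N r2 F) cw q
    have m1 := jint1 ((slice_cont (φ := fun (q : ℝ × ℝ) z => pd 2 θ (pt q z)) cθ' q).mul cwq) (lg.zb q)
    have m2 := jint1 ((slice_cont (φ := fun (q : ℝ × ℝ) z => pd 2 θ (pt q z)) cθ' (q - a)).mul cwq) (lg.zb (q - a))
    have m1' : Integrable (fun z => gq N r2 F q z * (pd 2 θ (pt q z) * wq N r2 F q z)) := m1
    have m2' : Integrable (fun z => gq N r2 F (q - a) z * (pd 2 θ (pt (q - a) z) * wq N r2 F q z)) := m2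
    rw [← integral_sub m1' m2']
    refine integral_congr_ae (Eventually.of_forall fun z => ?_)
    simp only
    ring
  simp only [f1, f2, f3]
  exact main

end Pool.Agent.H37.TQ
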