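import Pool.Agent.H16.TQ.ToH
import Pool.Agent.H42.TQ.A1

/-
Integrals over the height of products of fields over the plane: integrability, continuity, translations, the k-square estimate
(for row TQ_T1).
-/

set_option autoImplicit false

open Set Filter Topology MeasureTheory
open scoped ContDiff InnerProductSpace

namespace Pool.Agent.H37.TQ

open Pool.Agent.H16 Pool.Agent.H87.NS Pool.Agent.H72.CC Pool.Agent.H16.TU Pool.Agent.H94.EP Pool.Agent.H42.TQ Pool.Agent.H16.TQ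

/-- Zero for a.e. height outside `[-R, R]`. -/
def Zb (R : ℝ) (f : Hz) : Prop := ∀ᵐ z : ℝ, R < |z| → f z = 0

theorem Zb.sub {R : ℝ} {f g : Hz} (hf : Zb R f) (hg : Zb R g) : Zb R (f - g) := by
  filter_upwards [hf, hg, Lp.coeFn_sub f g] with z h1 h2 h3 hz
  rw [h3, Pi.sub_apply, h1 hz, h2 hz, sub_zero]

theorem Zb.smul {R : ℝ} {f : Hz} (c : ℝ) (hf : Zb R f) : Zb R (c • f) := by
  filter_upwards [hf, Lp.coeFn_smul c f] with z h1 h3 hz
  rw [h3, Pi.smul_apply, h1 hz, smul_zero]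

/-- The product of an element with a function. -/
noncomputable def mulz (φ : ℝ → ℝ) (f : Hz) : Hz := toH (fun z => φ z * f z)

theorem mulz_mem {R : ℝ} {φ : ℝ → ℝ} (hφ : Continuous φ) {f : Hz} (hf : Zb R f) : MemLp (fun z => φ z * f z) 2 volume := by
  obtain ⟨M, hM⟩ := (isCompact_Icc (a := -R) (b := R)).exists_bound_of_continuousOn hφ.continuousOn
  refine (Lp.memLp f).of_le_mul (c := M) (hφ.aestronglyMeasurable.mul (Lp.memLp f).1) ?_
  filter_upwards [hf] with z hz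
  rcases lt_or_ge R |z| with h | h
  · rw [hz h]
    simp
  · rw [norm_mul]
    exact mul_le_mul_of_nonneg_right (hM z (abs_le.1 h)) (norm_nonneg _)

theorem mulz_coe {R : ℝ} {φ : ℝ → ℝ} (hφ : Continuous φ) {f : Hz} (hf : Zb R f) : mulz φ f =ᵐ[volume] fun z => φ z * f z := by
  unfold mulz
  rw [toH_of (mulz_mem hφ hf)]
  exact (mulz_mem hφ hf).coeFn_toLp

theorem mulz_norm {R M : ℝ} {φ : ℝ → ℝ} (hφ : Continuous φ) {f : Hz} (hf : Zb R f) (hM : ∀ z, |z| ≤ R → |φ z| ≤ M) :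
    ‖mulz φ f‖ ≤ M * ‖f‖ := by
  refine Lp.norm_le_mul_norm_of_ae_le_mul ?_
  filter_upwards [hf, mulz_coe hφ hf] with z hz h1
  rw [h1]
  rcases lt_or_ge R |z| with h | h
  · rw [hz h]
    simp
  · rw [norm_mul]
    exact mul_le_mul_of_nonneg_right (hM z h) (norm_nonneg _)

theorem mulz_zb {R : ℝ} {φ : ℝ → ℝ} (hφ : Continuous φ) {f : Hz} (hf : Zb R f) : Zb R (mulz φ f) := by
  filter_upwards [hf, mulz_coe hφ hf] with z hz h1 h
  rw [h1, hz h, mul_zero]

theorem mulz_inner {R : ℝ} {φ : ℝ → ℝ} (hφ : Continuous φ) {f : Hz} (hf : Zb R f) (g : Hz) :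
    ⟪mulz φ f, g⟫_ℝ = ∫ z, f z * φ z * g z := by
  rw [L2.inner_def]
  refine integral_congr_ae ?_
  filter_upwards [mulz_coe hφ hf] with z h1
  rw [h1]
  simp
  ring

theorem hz_int (f g : Hz) : Integrable (fun z => f z * g z) := (Lp.memLp f).integrable_mul (Lp.memLp g)

theorem mulz_int {R : ℝ} {φ : ℝ → ℝ} (hφ : Continuous φ) {f : Hz} (hf : Zb R f) (g : Hz) :
    Integrable (fun z => f z * φ z * g z) := by
  refine (hz_int (mulz φ f) g).congr ?_
  filter_upwards [mulz_coe hφ hf] with z h1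
  rw [h1]
  ring

variable {P : Type} [TopologicalSpace P]

/-- Uniform continuity over the box. -/
theorem unif {φ : P → ℝ → ℝ} (hφ : Continuous fun x : P × ℝ => φ x.1 x.2) (R : ℝ) (p0 : P) {ε : ℝ} (hε : 0 < ε) :
    ∀ᶠ p in 𝓝 p0, ∀ z, |z| ≤ R → |φ p z - φ p0 z| ≤ ε := by
  obtain ⟨v, hv, h⟩ := IsCompact.mem_uniformity_of_prod (f := φ) (s := univ) (k := Icc (-R) R) (q := p0)
    (u := {x : ℝ × ℝ | dist x.1 x.2 < ε}) isCompact_Icc hφ.continuousOn (mem_univ _) (Metric.dist_mem_uniformity hε)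
  rw [nhdsWithin_univ] at hv
  filter_upwards [hv] with p hp z hz
  have h3 : dist (φ p z) (φ p0 z) < ε := h p hp z (abs_le.1 hz)
  rw [Real.dist_eq] at h3
  exact h3.le

theorem slice_cont {φ : P → ℝ → ℝ} (hφ : Continuous fun x : P × ℝ => φ x.1 x.2) (p : P) : Continuous (φ p) :=
  hφ.comp (continuous_const.prodMk continuous_id)

/-- Continuity of the product. -/
theorem mulz_cont {R : ℝ} {φ : P → ℝ → ℝ} (hφ : Continuous fun x : P × ℝ => φ x.1 x.2) {X : P → Hz} (hX : Continuous X)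
    (hR : ∀ p, Zb R (X p)) : Continuous (fun p => mulz (φ p) (X p)) := by
  rw [continuous_iff_continuousAt]
  intro p0
  have hs := slice_cont hφ
  obtain ⟨M, hM⟩ := (isCompact_Icc (a := -R) (b := R)).exists_bound_of_continuousOn (hs p0).continuousOn
  have hM0 : ∀ z, |z| ≤ R → |φ p0 z| ≤ |M| := fun z hz => (hM z (abs_le.1 hz)).trans (le_abs_self _)
  rw [ContinuousAt, tendsto_iff_norm_sub_tendsto_zero, Metric.tendsto_nhds]
  intro ε hε
  have hN : 0 < ‖X p0‖ + 1 := by positivity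
  have e1 := unif hφ R p0 (ε := ε / (2 * (‖X p0‖ + 1))) (by positivity)
  have e2 : ∀ᶠ p in 𝓝 p0, ‖X p - X p0‖ < ε / (2 * (|M| + 1)) := by
    have h1 : Tendsto (fun p => ‖X p - X p0‖) (𝓝 p0) (𝓝 0) := tendsto_iff_norm_sub_tendsto_zero.1 (hX.tendsto p0)
    exact h1.eventually_lt_const (by positivity)
  have e3 : ∀ᶠ p in 𝓝 p0, ‖X p‖ < ‖X p0‖ + 1 := (hX.norm.tendsto p0).eventually_lt_const (by linarith)
  filter_upwards [e1, e2, e3] with p h1 h2 h3
  rw [Real.dist_eq, sub_zero, abs_of_nonneg (norm_nonneg _)]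
  have hd : Continuous (fun z => φ p z - φ p0 z) := (hs p).sub (hs p0)
  have k1 : mulz (φ p) (X p) - mulz (φ p0) (X p0) = mulz (fun z => φ p z - φ p0 z) (X p) + mulz (φ p0) (X p - X p0) := by
    apply Lp.ext
    filter_upwards [Lp.coeFn_sub (mulz (φ p) (X p)) (mulz (φ p0) (X p0)),
      Lp.coeFn_add (mulz (fun z => φ p z - φ p0 z) (X p)) (mulz (φ p0) (X p - X p0)), mulz_coe (hs p) (hR p),
      mulz_coe (hs p0) (hR p0), mulz_coe hd (hR p), mulz_coe (hs p0) ((hR p).sub (hR p0)),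
      Lp.coeFn_sub (X p) (X p0)] with z a1 a2 a3 a4 a5 a6 a7
    rw [a1, a2, Pi.sub_apply, Pi.add_apply, a3, a4, a5, a6, a7, Pi.sub_apply]
    ring
  rw [k1]
  have k2 := mulz_norm hd (hR p) h1
  have k3 := mulz_norm (hs p0) ((hR p).sub (hR p0)) hM0
  have k4 : ε / (2 * (‖X p0‖ + 1)) * ‖X p‖ ≤ ε / 2 := by
    calc ε / (2 * (‖X p0‖ + 1)) * ‖X p‖ ≤ ε / (2 * (‖X p0‖ + 1)) * (‖X p0‖ + 1) :=
          mul_le_mul_of_nonneg_left h3.le (by positivity)
      _ = ε / 2 := by field_simp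
  have k5 : |M| * ‖X p - X p0‖ < ε / 2 := by
    have hM1 : 0 < |M| + 1 := by positivity
    calc |M| * ‖X p - X p0‖ ≤ (|M| + 1) * ‖X p - X p0‖ := mul_le_mul_of_nonneg_right (by linarith) (norm_nonneg _)
      _ < (|M| + 1) * (ε / (2 * (|M| + 1))) := mul_lt_mul_of_pos_left h2 hM1
      _ = ε / 2 := by field_simp
  have k6 := norm_add_le (mulz (fun z => φ p z - φ p0 z) (X p)) (mulz (φ p0) (X p - X p0))
  linarith

/-- (2) Continuity of the integrals over the height. -/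
theorem jcont {R : ℝ} {φ : P → ℝ → ℝ} (hφ : Continuous fun x : P × ℝ => φ x.1 x.2) {X Y : P → Hz} (hX : Continuous X)
    (hY : Continuous Y) (hR : ∀ p, Zb R (X p)) : Continuous (fun p => ∫ z, X p z * φ p z * Y p z) := by
  have h1 : (fun p => ∫ z, X p z * φ p z * Y p z) = fun p => ⟪mulz (φ p) (X p), Y p⟫_ℝ :=
    funext fun p => (mulz_inner (slice_cont hφ p) (hR p) (Y p)).symm
  rw [h1]
  exact (mulz_cont hφ hX hR).inner hY

/-- The box function. -/
noncomputable def one (R : ℝ) : Hz := indicatorConstLp 2 (measurableSet_Icc (a := -R) (b := R)) (by simp) (1 : ℝ)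

theorem one_mul' {R : ℝ} {f : Hz} (hf : Zb R f) : ∀ᵐ z, f z * one R z = f z := by
  filter_upwards [hf, indicatorConstLp_coeFn (p := 2) (hs := measurableSet_Icc (a := -R) (b := R)) (hμs := by simp) (c := (1 : ℝ))]
    with z h1 h2
  unfold one
  rw [h2]
  by_cases h : z ∈ Icc (-R) R
  · rw [indicator_of_mem h, mul_one]
  · rw [indicator_of_notMem h, mul_zero, h1]
    by_contra h3
    rw [not_lt] at h3
    exact h (abs_le.1 h3)

/-- (2') Continuity with one field only. -/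
theorem jcont1 {R : ℝ} {φ : P → ℝ → ℝ} (hφ : Continuous fun x : P × ℝ => φ x.1 x.2) {X : P → Hz} (hX : Continuous X)
    (hR : ∀ p, Zb R (X p)) : Continuous (fun p => ∫ z, X p z * φ p z) := by
  have h1 : (fun p => ∫ z, X p z * φ p z) = fun p => ∫ z, X p z * φ p z * one R z := by
    funext p
    refine integral_congr_ae ?_
    filter_upwards [one_mul' (hR p)] with z hz
    calc X p z * φ p z = (X p z * one R z) * φ p z := by rw [hz]
      _ = X p z * φ p z * one R z := by ring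
  rw [h1]
  exact jcont hφ hX continuous_const hR

theorem jint1 {R : ℝ} {φ : ℝ → ℝ} (hφ : Continuous φ) {f : Hz} (hf : Zb R f) : Integrable (fun z => f z * φ z) := by
  refine (mulz_int hφ hf (one R)).congr ?_
  filter_upwards [one_mul' hf] with z hz
  calc f z * φ z * one R z = (f z * one R z) * φ z := by ring
    _ = f z * φ z := by rw [hz]

/-! ### Fields over the plane -/

/-- Continuous fields with bounded support in the plane and in the height. -/
structure Fl (R ρ : ℝ) (X : ℝ × ℝ → Hz) : Prop where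
  ct : Continuous X
  zb : ∀ q, Zb R (X q)
  qb : ∀ q, ρ < ‖q‖ → X q = 0

theorem Fl.mono {R ρ ρ' : ℝ} {X : ℝ × ℝ → Hz} (h : Fl R ρ X) (h' : ρ ≤ ρ') : Fl R ρ' X :=
  ⟨h.ct, h.zb, fun q hq => h.qb q (lt_of_le_of_lt h' hq)⟩

theorem Fl.shift {R ρ : ℝ} {X : ℝ × ℝ → Hz} (h : Fl R ρ X) (a : ℝ × ℝ) : Fl R (ρ + ‖a‖) (fun q => X (q - a)) := by
  refine ⟨h.ct.comp (continuous_id.sub continuous_const), fun q => h.zb _, fun q hq => h.qb _ ?_⟩
  have := norm_sub_norm_le q a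
  linarith

theorem Fl.int {R ρ : ℝ} {X : ℝ × ℝ → Hz} (h : Fl R ρ X) {φ : ℝ × ℝ → ℝ → ℝ} (hφ : Continuous fun x : (ℝ × ℝ) × ℝ => φ x.1 x.2)
    {Y : ℝ × ℝ → Hz} (hY : Continuous Y) : Integrable (fun q => ∫ z, X q z * φ q z * Y q z) := by
  refine Continuous.integrable_of_hasCompactSupport (jcont hφ h.ct hY h.zb) ?_
  refine HasCompactSupport.intro (isCompact_closedBall (0 : ℝ × ℝ) ρ) fun q hq => ?_
  have h1 : ρ < ‖q‖ := by
    rw [mem_closedBall_zero_iff, not_le] at hq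
    exact hq
  rw [h.qb q h1]
  have h2 : ∀ᵐ z, (0 : Hz) z * φ q z * Y q z = 0 := by
    filter_upwards [Lp.coeFn_zero ℝ 2 (volume : Measure ℝ)] with z hz
    rw [hz]
    simp
  rw [integral_congr_ae h2]
  simp

theorem Fl.int1 {R ρ : ℝ} {X : ℝ × ℝ → Hz} (h : Fl R ρ X) {φ : ℝ × ℝ → ℝ → ℝ} (hφ : Continuous fun x : (ℝ × ℝ) × ℝ => φ x.1 x.2) :
    Integrable (fun q => ∫ z, X q z * φ q z) := by
  refine Continuous.integrable_of_hasCompactSupport (jcont1 hφ h.ct h.zb) ?_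
  refine HasCompactSupport.intro (isCompact_closedBall (0 : ℝ × ℝ) ρ) fun q hq => ?_
  have h1 : ρ < ‖q‖ := by
    rw [mem_closedBall_zero_iff, not_le] at hq
    exact hq
  rw [h.qb q h1]
  have h2 : ∀ᵐ z, (0 : Hz) z * φ q z = 0 := by
    filter_upwards [Lp.coeFn_zero ℝ 2 (volume : Measure ℝ)] with z hz
    rw [hz]
    simp
  rw [integral_congr_ae h2]
  simp

/-- Change of variables. -/
theorem tr_q (J : ℝ × ℝ → ℝ) (a : ℝ × ℝ) : ∫ q, J (q - a) = ∫ q, J q := integral_sub_right_eq_self J a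

/-- The k-square estimate over one point of the plane. -/
theorem ksq1 {R : ℝ} {k : ℝ → ℝ} (hk : Continuous k) (hk0 : ∀ z, 0 ≤ k z) {f g : Hz} (hf : Zb R f) (hg : Zb R g) :
    ∫ z, f z * k z * g z ≤ (∫ z, f z * k z * f z) / 2 + (∫ z, g z * k z * g z) / 2 := by
  rw [← integral_div, ← integral_div, ← integral_add ((mulz_int hk hf f).div_const 2) ((mulz_int hk hg g).div_const 2)]
  refine integral_mono (mulz_int hk hf g) (((mulz_int hk hf f).div_const 2).add ((mulz_int hk hg g).div_const 2)) fun z => ?_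
  have h1 := mul_nonneg (hk0 z) (sq_nonneg (f z - g z))
  simp only
  nlinarith

/-- The abstract form of the shift inequality. -/
theorem shift_abs {R ρ : ℝ} {f g u : ℝ × ℝ → Hz} {w : ℝ × ℝ → ℝ → ℝ} {c : ℝ × ℝ → ℝ} {θ θ' k : ℝ × ℝ → ℝ → ℝ} (a : ℝ × ℝ)
    (hf : Fl R ρ f) (hg : Fl R ρ g) (hu : Fl R ρ u)
    (hw : Continuous fun x : (ℝ × ℝ) × ℝ => w x.1 x.2) (hθ : Continuous fun x : (ℝ × ℝ) × ℝ => θ x.1 x.2)
    (hθ' : Continuous fun x : (ℝ × ℝ) × ℝ => θ' x.1 x.2) (hk : Continuous fun x : (ℝ × ℝ) × ℝ => k x.1 x.2)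
    (hk0 : ∀ q z, 0 ≤ k q z) (hkc : ∀ q z, k q z = c q * θ q z) (hfg : ∀ q, f q = g q + c q • u q)
    (hn : ∀ q, ∫ z, g q z * (θ q z * (u (q + a) z - u q z) + θ' q z * (w q z - w (q + a) z)) ≤ 0) :
    (∫ q, ((∫ z, f (q - a) z * θ (q - a) z * u q z) - ∫ z, f q z * θ q z * u q z)) +
    1 / 2 * (∫ q, ((∫ z, u q z * k q z * u q z) - ∫ z, u q z * k (q - a) z * u q z)) +
    (∫ q, ((∫ z, g q z * (θ' q z * w q z)) - ∫ z, g (q - a) z * (θ' (q - a) z * w q z))) ≤ 0 := by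
  have hsh : ∀ {φ : ℝ × ℝ → ℝ → ℝ}, (Continuous fun x : (ℝ × ℝ) × ℝ => φ x.1 x.2) → ∀ b : ℝ × ℝ,
      Continuous fun x : (ℝ × ℝ) × ℝ => φ (x.1 + b) x.2 := fun {φ} h b =>
    h.comp (((continuous_fst.add continuous_const)).prodMk continuous_snd)
  have hsm : ∀ {φ : ℝ × ℝ → ℝ → ℝ}, (Continuous fun x : (ℝ × ℝ) × ℝ => φ x.1 x.2) → ∀ b : ℝ × ℝ,
      Continuous fun x : (ℝ × ℝ) × ℝ => φ (x.1 - b) x.2 := fun {φ} h b =>
    h.comp (((continuous_fst.sub continuous_const)).prodMk continuous_snd)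
  have cu : Continuous fun q => u (q + a) := hu.ct.comp (continuous_id.add continuous_const)
  -- the integrals over the height
  obtain ⟨I1, eI1⟩ : ∃ I : ℝ × ℝ → ℝ, I = fun q => ∫ z, g q z * θ q z * u (q + a) z := ⟨_, rfl⟩
  obtain ⟨I2, eI2⟩ : ∃ I : ℝ × ℝ → ℝ, I = fun q => ∫ z, g q z * θ q z * u q z := ⟨_, rfl⟩
  obtain ⟨I3, eI3⟩ : ∃ I : ℝ × ℝ → ℝ, I = fun q => ∫ z, g q z * (θ' q z * w q z) := ⟨_, rfl⟩
  obtain ⟨I4, eI4⟩ : ∃ I : ℝ × ℝ → ℝ, I = fun q => ∫ z, g q z * (θ' q z * w (q + a) z) := ⟨_, rfl⟩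
  obtain ⟨E2, eE2⟩ : ∃ I : ℝ × ℝ → ℝ, I = fun q => ∫ z, f q z * θ q z * u q z := ⟨_, rfl⟩
  obtain ⟨E1, eE1⟩ : ∃ I : ℝ × ℝ → ℝ, I = fun q => ∫ z, f (q - a) z * θ (q - a) z * u q z := ⟨_, rfl⟩
  obtain ⟨K1, eK1⟩ : ∃ I : ℝ × ℝ → ℝ, I = fun q => ∫ z, u (q - a) z * k (q - a) z * u q z := ⟨_, rfl⟩
  obtain ⟨K2, eK2⟩ : ∃ I : ℝ × ℝ → ℝ, I = fun q => ∫ z, u q z * k q z * u q z := ⟨_, rfl⟩
  obtain ⟨K3, eK3⟩ : ∃ I : ℝ × ℝ → ℝ, I = fun q => ∫ z, u q z * k (q - a) z * u q z := ⟨_, rfl⟩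
  have hφ3 : Continuous fun x : (ℝ × ℝ) × ℝ => θ' x.1 x.2 * w x.1 x.2 := hθ'.mul hw
  have hφ4 : Continuous fun x : (ℝ × ℝ) × ℝ => θ' x.1 x.2 * w (x.1 + a) x.2 := hθ'.mul (hsh hw a)
  have i1 : Integrable I1 := by rw [eI1]; exact hg.int hθ cu
  have i2 : Integrable I2 := by rw [eI2]; exact hg.int hθ hu.ct
  have i3 : Integrable I3 := by rw [eI3]; exact hg.int1 (φ := fun q z => θ' q z * w q z) hφ3
  have i4 : Integrable I4 := by rw [eI4]; exact hg.int1 (φ := fun q z => θ' q z * w (q + a) z) hφ4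
  have iE2 : Integrable E2 := by rw [eE2]; exact hf.int hθ hu.ct
  have iE1 : Integrable E1 := by rw [eE1]; exact (hf.shift a).int (φ := fun q z => θ (q - a) z) (hsm hθ a) hu.ct
  have iK1 : Integrable K1 := by rw [eK1]; exact (hu.shift a).int (φ := fun q z => k (q - a) z) (hsm hk a) hu.ct
  have iK2 : Integrable K2 := by rw [eK2]; exact hu.int hk hu.ct
  have iK3 : Integrable K3 := by rw [eK3]; exact hu.int (φ := fun q z => k (q - a) z) (hsm hk a) hu.ct
  -- the neighbour inequality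
  have n1 : ∀ q, I1 q - I2 q + I3 q - I4 q ≤ 0 := by
    intro q
    have j1 := mulz_int (slice_cont hθ q) (hg.zb q) (u (q + a))
    have j2 := mulz_int (slice_cont hθ q) (hg.zb q) (u q)
    have j3 := jint1 (φ := fun z => θ' q z * w q z) (slice_cont (φ := fun q z => θ' q z * w q z) hφ3 q) (hg.zb q)
    have j4 := jint1 (φ := fun z => θ' q z * w (q + a) z) (slice_cont (φ := fun q z => θ' q z * w (q + a) z) hφ4 q) (hg.zb q)
    have e : I1 q - I2 q + I3 q - I4 q =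
        ∫ z, g q z * (θ q z * (u (q + a) z - u q z) + θ' q z * (w q z - w (q + a) z)) := by
      rw [eI1, eI2, eI3, eI4]
      simp only
      have j12 : Integrable (fun z => g q z * θ q z * u (q + a) z - g q z * θ q z * u q z) := j1.sub j2
      have j123 : Integrable (fun z => g q z * θ q z * u (q + a) z - g q z * θ q z * u q z + g q z * (θ' q z * w q z)) := j12.add j3
      rw [← integral_sub j1 j2, ← integral_add j12 j3, ← integral_sub j123 j4]
      refine integral_congr_ae (Eventually.of_forall fun z => ?_)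
      simp only
      ring
    rw [e]
    exact hn q
  have n2 : (∫ q, I1 q) - (∫ q, I2 q) + (∫ q, I3 q) - ∫ q, I4 q ≤ 0 := by
    have i12 : Integrable (fun q => I1 q - I2 q) := i1.sub i2
    have i123 : Integrable (fun q => I1 q - I2 q + I3 q) := i12.add i3
    rw [← integral_sub i1 i2, ← integral_add i12 i3, ← integral_sub i123 i4]
    exact integral_nonpos fun q => n1 q
  -- the first term after the change of variables
  have a1 : ∀ q, I1 (q - a) = E1 q - K1 q := by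
    intro q
    rw [eI1, eE1, eK1]
    simp only [sub_add_cancel]
    have m1 := mulz_int (slice_cont hθ (q - a)) (hf.zb (q - a)) (u q)
    have m2 := mulz_int (slice_cont hk (q - a)) (hu.zb (q - a)) (u q)
    rw [← integral_sub m1 m2]
    refine integral_congr_ae ?_
    have h1 := hfg (q - a)
    filter_upwards [Lp.coeFn_add (g (q - a)) (c (q - a) • u (q - a)), Lp.coeFn_smul (c (q - a)) (u (q - a))] with z h2 h3
    rw [h1, h2, Pi.add_apply, h3, Pi.smul_apply, hkc, smul_eq_mul]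
    ring
  have a2 : ∀ q, I2 q = E2 q - K2 q := by
    intro q
    rw [eI2, eE2, eK2]
    have m1 := mulz_int (slice_cont hθ q) (hf.zb q) (u q)
    have m2 := mulz_int (slice_cont hk q) (hu.zb q) (u q)
    simp only
    rw [← integral_sub m1 m2]
    refine integral_congr_ae ?_
    have h1 := hfg q
    filter_upwards [Lp.coeFn_add (g q) (c q • u q), Lp.coeFn_smul (c q) (u q)] with z h2 h3
    rw [h1, h2, Pi.add_apply, h3, Pi.smul_apply, hkc, smul_eq_mul]
    ring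
  have b1 : ∫ q, I1 q = (∫ q, E1 q) - ∫ q, K1 q := by
    rw [← tr_q I1 a, ← integral_sub iE1 iK1]
    exact integral_congr_ae (Eventually.of_forall a1)
  have b2 : ∫ q, I2 q = (∫ q, E2 q) - ∫ q, K2 q := by
    rw [← integral_sub iE2 iK2]
    exact integral_congr_ae (Eventually.of_forall a2)
  have b3 : ∫ q, K1 q ≤ (∫ q, K2 q) / 2 + (∫ q, K3 q) / 2 := by
    have h1 : ∀ q, K1 q ≤ K2 (q - a) / 2 + K3 q / 2 := by
      intro q
      rw [eK1, eK2, eK3]
      exact ksq1 (slice_cont hk (q - a)) (hk0 (q - a)) (hu.zb (q - a)) (hu.zb q)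
    have iK2' : Integrable (fun q => K2 (q - a)) := iK2.comp_sub_right a
    calc ∫ q, K1 q ≤ ∫ q, (K2 (q - a) / 2 + K3 q / 2) :=
          integral_mono iK1 ((iK2'.div_const 2).add (iK3.div_const 2)) h1
      _ = (∫ q, K2 q) / 2 + (∫ q, K3 q) / 2 := by
          rw [integral_add (iK2'.div_const 2) (iK3.div_const 2), integral_div, integral_div, tr_q K2 a]
  have b4 : ∫ q, I4 q = ∫ q, ∫ z, g (q - a) z * (θ' (q - a) z * w q z) := by
    rw [← tr_q I4 a, eI4]
    simp only [sub_add_cancel]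
  have i4' : Integrable (fun q => ∫ z, g (q - a) z * (θ' (q - a) z * w q z)) := by
    have h1 := i4.comp_sub_right a
    rw [eI4] at h1
    simpa only [sub_add_cancel] using h1
  have d1 : (∫ q, ((∫ z, f (q - a) z * θ (q - a) z * u q z) - ∫ z, f q z * θ q z * u q z)) = (∫ q, E1 q) - ∫ q, E2 q := by
    rw [← integral_sub iE1 iE2, eE1, eE2]
  have d2 : (∫ q, ((∫ z, u q z * k q z * u q z) - ∫ z, u q z * k (q - a) z * u q z)) = (∫ q, K2 q) - ∫ q, K3 q := by
    rw [← integral_sub iK2 iK3, eK2, eK3]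
  have d3 : (∫ q, ((∫ z, g q z * (θ' q z * w q z)) - ∫ z, g (q - a) z * (θ' (q - a) z * w q z))) = (∫ q, I3 q) - ∫ q, I4 q := by
    rw [b4, ← integral_sub i3 i4', eI3]
  rw [d1, d2, d3]
  linarith only [n2, b1, b2, b3]

end Pool.Agent.H37.TQ
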